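import Pool.Agent.V5helper14.Sep.Stm

/-!
# Project SE: job NOTB
-/

set_option autoImplicit false

namespace Pool.Agent.V5helper14.Sep

open Matrix Filter Pool.Agent.V5helper14.Hel

theorem dot_row_append {K : ℕ} (L : Fin (K + 3) → ℝ) (g : Fin K → ℝ) (x : Fin 2 → ℝ) :
    L ⬝ᵥ row (Fin.append g x : Fin (K + 2) → ℝ) =
      L 0 + ∑ m, L (Fin.castAdd 2 m).succ * g m +
        (L (Fin.natAdd K (1 : Fin 3)) * x 0 + L (Fin.natAdd K (2 : Fin 3)) * x 1) := by
  unfold dotProduct row
  rw [Fin.sum_univ_succ]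
  simp only [Fin.cons_zero, Fin.cons_succ, mul_one]
  rw [Fin.sum_univ_add, Fin.sum_univ_two]
  simp only [Fin.append_left, Fin.append_right]
  exact (add_assoc _ _ _).symm

theorem pair_strictMono {K : ℕ} {i j : Fin 4} (hij : i < j) :
    StrictMono (Fin.append (fun m : Fin K => Fin.castAdd 4 m) ![Fin.natAdd K i, Fin.natAdd K j] :
      Fin (K + 2) → Fin (K + 4)) := by
  intro u v huv
  induction u using Fin.addCases with
  | left m =>
    induction v using Fin.addCases with
    | left m' =>
      rw [Fin.append_left, Fin.append_left]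
      exact (show (m : ℕ) < m' from huv)
    | right l' =>
      rw [Fin.append_left, Fin.append_right]
      have h1 : (m : ℕ) < K := m.2
      have h2 : ∀ w : Fin 4, Fin.castAdd 4 m < Fin.natAdd K w := fun w =>
        (show (m : ℕ) < K + w by omega)
      fin_cases l'
      · exact h2 i
      · exact h2 j
  | right l =>
    induction v using Fin.addCases with
    | left m' =>
      exfalso
      have h1 := m'.2
      have h2 : K + (l : ℕ) < m' := huv
      omega
    | right l' =>
      rw [Fin.append_right, Fin.append_right]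
      have h2 : K + (l : ℕ) < K + l' := huv
      have h3 : (i : ℕ) < j := hij
      have h4 : Fin.natAdd K i < Fin.natAdd K j := (show K + (i : ℕ) < K + j by omega)
      fin_cases l <;> fin_cases l'
      · exact absurd h2 (by simp)
      · exact h4
      · exact absurd h2 (by simp)
      · exact absurd h2 (by simp)

theorem sum_gg_row {K : ℕ} (j : Fin 4) : ss K j - ∑ m : Fin K, gg j m = 1 := by
  unfold ss; ring

theorem cc_pos {K : ℕ} (m : Fin K) : 0 < cc m := by unfold cc; positivity

theorem gg_nonneg {K : ℕ} (j : Fin 4) (m : Fin K) : 0 ≤ gg j m := by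
  unfold gg
  fin_cases j <;> simp [(cc_pos m).le]

theorem ss_pos (K : ℕ) (j : Fin 4) : 0 < ss K j := by
  unfold ss
  have : 0 ≤ ∑ m : Fin K, gg j m := Finset.sum_nonneg fun m _ => gg_nonneg j m
  linarith

/-- The purely planar contradiction. -/
theorem planar {l0 l1 l2 M : ℝ} {x y : Fin 4 → ℝ} (hl : l1 ≠ 0 ∨ l2 ≠ 0)
    (hline : ∀ j, l0 + (l1 * x j + l2 * y j) = 0)
    (hD : ∀ i j : Fin 4, i < j → ∀ τ : ℝ, x j - x i = τ * l2 → y j - y i = -(τ * l1) → 0 < τ * M)
    (h0 : ∃ b : ℝ, 0 ≤ b ∧ b ≤ 1 ∧ x 0 = -4 + 14 * b ∧ y 0 = -4 + 4 * b)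
    (h1 : x 1 = -1 ∧ -1 ≤ y 1) (h2 : x 2 = 1 ∧ y 2 ≤ 1) (h3 : y 3 ≤ 0) : False := by
  have key : ∀ i j : Fin 4, i < j → ∃ τ : ℝ, x j - x i = τ * l2 ∧ y j - y i = -(τ * l1) ∧
      0 < τ * M := by
    intro i j hij
    have hq : 0 < l1 ^ 2 + l2 ^ 2 := by
      rcases hl with h | h
      · have := sq_pos_of_ne_zero h
        nlinarith [sq_nonneg l2]
      · have := sq_pos_of_ne_zero h
        nlinarith [sq_nonneg l1]
    have ho : l1 * (x j - x i) + l2 * (y j - y i) = 0 := by linarith [hline i, hline j]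
    let τ := ((x j - x i) * l2 - (y j - y i) * l1) / (l1 ^ 2 + l2 ^ 2)
    have e1 : x j - x i = τ * l2 := by
      simp only [τ]
      field_simp
      linear_combination l1 * ho
    have e2 : y j - y i = -(τ * l1) := by
      simp only [τ]
      field_simp
      linear_combination l2 * ho
    exact ⟨τ, e1, e2, hD i j hij τ e1 e2⟩
  obtain ⟨t01, a1, a2, a3⟩ := key 0 1 (by decide)
  obtain ⟨t12, b1, b2, b3⟩ := key 1 2 (by decide)
  obtain ⟨t23, c1, c2, c3⟩ := key 2 3 (by decide)
  have hM : M ≠ 0 := by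
    rintro rfl
    simp at a3
  have ht12 : t12 ≠ 0 := by
    rintro rfl
    simp at b3
  have hMM : 0 < M ^ 2 := by positivity
  have p1 : 0 < t01 / t12 := by
    have : t01 / t12 = (t01 * M) / (t12 * M) := by field_simp
    rw [this]; exact div_pos a3 b3
  have p2 : 0 < t23 / t12 := by
    have : t23 / t12 = (t23 * M) / (t12 * M) := by field_simp
    rw [this]; exact div_pos c3 b3
  set t := t01 / t12 with ht
  set s := t23 / t12 with hs
  have e01 : t01 = t * t12 := by rw [ht]; field_simp
  have e23 : t23 = s * t12 := by rw [hs]; field_simp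
  have q1 : x 1 - x 0 = t * (x 2 - x 1) := by rw [a1, b1, e01]; ring
  have q2 : y 1 - y 0 = t * (y 2 - y 1) := by rw [a2, b2, e01]; ring
  have q3 : y 3 - y 2 = s * (y 2 - y 1) := by rw [c2, b2, e23]; ring
  obtain ⟨b, hb0, hb1, hx0, hy0⟩ := h0
  obtain ⟨hx1, hy1⟩ := h1
  obtain ⟨hx2, hy2⟩ := h2
  rw [hx1, hx2, hx0] at q1
  have hb : b = (3 - 2 * t) / 14 := by linarith
  have ht32 : t ≤ 3 / 2 := by
    have := hb ▸ hb0
    linarith
  have hy0' : y 0 = (1 + t) * y 1 - t * y 2 := by linarith
  have hy0'' : 7 * ((1 + t) * y 1 - t * y 2) = -22 - 4 * t := by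
    rw [← hy0', hy0, hb]; ring
  have r1 : 0 ≤ (1 + t) * (y 1 + 1) := mul_nonneg (by linarith) (by linarith)
  have r2 : 0 ≤ t * (1 - y 2) := mul_nonneg p1.le (by linarith)
  have ht : t = 3 / 2 := by
    apply le_antisymm ht32
    nlinarith
  rw [ht] at r1 r2 hy0''
  have hy1' : y 1 = -1 := by linarith
  have hy2' : y 2 = 1 := by linarith
  rw [hy1', hy2'] at q3
  linarith

theorem t_NOTB (hP : S_PAIR) : S_NOTB := by
  intro K hC
  obtain ⟨L, r, X', hL, hLr, hX, hsgn⟩ := hC
  obtain ⟨s, hs, hor, hhd⟩ := hP K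
  have hap : ∀ m : Fin K, X' (Fin.castAdd 4 m) = apx (q := 2) m := by
    intro m
    have := (hX (Fin.castAdd 4 m) (Finset.mem_univ _)).1
    unfold famA at this
    rw [Fin.append_left] at this
    exact this
  have hsg : ∀ j : Fin 4, ∃ Y ∈ sgm4 j, emb j Y = X' (Fin.natAdd K j) := by
    intro j
    have := (hX (Fin.natAdd K j) (Finset.mem_univ _)).1
    unfold famA at this
    rw [Fin.append_right] at this
    exact this
  choose X hXs hXe using hsg
  have hX' : X' = pts (K := K) X := by
    funext i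
    refine Fin.addCases (fun m => ?_) (fun j => ?_) i
    · unfold pts
      rw [Fin.append_left, hap]
    · unfold pts
      rw [Fin.append_right, hXe]
  obtain ⟨rr, s', hs', hrr, hdet⟩ := hhd X r
  have hLa : ∀ m : Fin K, L ⬝ᵥ row (apx (q := 2) m) = 0 := by
    intro m
    have := (hX (Fin.castAdd 4 m) (Finset.mem_univ _)).2
    rw [hap] at this
    exact this
  have hLm : ∀ m : Fin K, L (Fin.castAdd 2 m).succ = -L 0 := by
    intro m
    have := hLa m
    unfold apx at this
    rw [dot_row_append] at this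
    simp only [Pi.zero_apply, mul_zero, add_zero] at this
    rw [Finset.sum_eq_single m] at this
    · simp only [Pi.single_eq_same, mul_one] at this
      linarith
    · intro b _ hb
      rw [Pi.single_eq_of_ne hb, mul_zero]
    · intro h
      exact absurd (Finset.mem_univ _) h
  have hline : ∀ j, L 0 + (L (Fin.natAdd K (1 : Fin 3)) * X j 0 +
      L (Fin.natAdd K (2 : Fin 3)) * X j 1) = 0 := by
    intro j
    have := (hX (Fin.natAdd K j) (Finset.mem_univ _)).2
    rw [← hXe] at this
    unfold emb at this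
    rw [dot_row_append] at this
    simp only [hLm] at this
    have h1 : ∑ m : Fin K, -L 0 * ((ss K j)⁻¹ * gg j m) =
        -L 0 * ((ss K j)⁻¹ * ∑ m : Fin K, gg j m) := by
      rw [Finset.mul_sum, Finset.mul_sum]
    rw [h1] at this
    have h2 := sum_gg_row (K := K) j
    have h3 := ss_pos K j
    have h4 : ∑ m : Fin K, gg j m = ss K j - 1 := by linarith
    rw [h4] at this
    field_simp at this
    linarith
  have hD : ∀ i j : Fin 4, i < j →
      0 < Matrix.det !![1, X i 0, X i 1; 1, X j 0, X j 1; rr 0, rr 1, rr 2] := by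
    intro i j hij
    have h1 := hsgn _ (pair_strictMono (K := K) hij) (fun _ => Finset.mem_univ _)
    obtain ⟨c, hc, hor'⟩ := hor i j hij
    obtain ⟨c', hc', hdet'⟩ := hdet i j hij
    rw [hX', hdet', hor', hs'] at h1
    have hji : 0 < ((j : ℕ) : ℝ) - ((i : ℕ) : ℝ) := by
      have : (i : ℕ) < (j : ℕ) := hij
      have : ((i : ℕ) : ℝ) < ((j : ℕ) : ℝ) := by exact_mod_cast this
      linarith
    generalize Matrix.det !![1, X i 0, X i 1; 1, X j 0, X j 1; rr 0, rr 1, rr 2] = D at h1 ⊢
    rcases hs with rfl | rfl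
    · rw [one_mul, one_mul, sign_pos (mul_pos hc hji), sign_eq_one_iff] at h1
      exact pos_of_mul_pos_right h1 hc'.le
    · have e1 : (-1 : ℝ) * c' * D = -(c' * D) := by ring
      have e2 : (-1 : ℝ) * c * (((j : ℕ) : ℝ) - ((i : ℕ) : ℝ)) =
          -(c * (((j : ℕ) : ℝ) - ((i : ℕ) : ℝ))) := by ring
      rw [e1, e2, sign_neg (by linarith [mul_pos hc hji] :
        -(c * (((j : ℕ) : ℝ) - ((i : ℕ) : ℝ))) < 0), sign_eq_neg_one_iff] at h1
      have : 0 < c' * D := by linarith
      exact pos_of_mul_pos_right this hc'.le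
  have hl : L (Fin.natAdd K (1 : Fin 3)) ≠ 0 ∨ L (Fin.natAdd K (2 : Fin 3)) ≠ 0 := by
    by_contra hc
    push Not at hc
    obtain ⟨g1, g2⟩ := hc
    have g0 : L 0 = 0 := by
      have := hline 0
      rw [g1, g2] at this
      linarith
    apply hLr
    rw [hrr L hLa, g0, g1, g2]
    simp [dotProduct, Fin.sum_univ_three]
  have hrr' := hrr L hLa
  refine planar (x := fun j => X j 0) (y := fun j => X j 1) (M := L ⬝ᵥ r) hl hline ?_ ?_ ?_ ?_ ?_
  · intro i j hij τ h1 h2
    have h3 := hD i j hij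
    have h4 : Matrix.det !![1, X i 0, X i 1; 1, X j 0, X j 1; rr 0, rr 1, rr 2] =
        τ * (L ⬝ᵥ r) := by
      rw [hrr', Matrix.det_fin_three]
      simp [dotProduct, Fin.sum_univ_three]
      have h5 := hline i
      have h6 : X j 0 = X i 0 + τ * L (Fin.natAdd K (2 : Fin 3)) := by linarith
      have h7 : X j 1 = X i 1 - τ * L (Fin.natAdd K (1 : Fin 3)) := by linarith
      rw [h6, h7]
      linear_combination (-τ * rr 0) * h5
    rw [← h4]
    exact h3
  · obtain ⟨a, b, ha, hb, hab, h⟩ := hXs 0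
    refine ⟨b, hb, by linarith, ?_, ?_⟩
    · simp only [← h]
      simp [endU, endV]
      linarith
    · simp only [← h]
      simp [endU, endV]
      linarith
  · obtain ⟨a, b, ha, hb, hab, h⟩ := hXs 1
    constructor
    · simp only [← h]
      simp [endU, endV]
      linarith
    · simp only [← h]
      simp [endU, endV]
      linarith
  · obtain ⟨a, b, ha, hb, hab, h⟩ := hXs 2
    constructor
    · simp only [← h]
      simp [endU, endV]
      linarith
    · simp only [← h]
      simp [endU, endV]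
      linarith
  · obtain ⟨a, b, ha, hb, hab, h⟩ := hXs 3
    simp only [← h]
    simp [endU, endV]
    linarith

end Pool.Agent.V5helper14.Sep
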