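import Pool.Agent.V5helper14.Sep.Stm

/-!
# Project SE: assembly
-/

set_option autoImplicit false

namespace Pool.Agent.V5helper14.Sep

open Matrix Filter Pool.Agent.V5helper14.Hel

theorem Cons.mono {k n : ℕ} {a : Fin n → Set (Fin (k + 1) → ℝ)} {p : Fin n → Fin k → ℝ}
    {B B' : Finset (Fin n)} (h : Cons a p B) (hB : B' ⊆ B) : Cons a p B' := by
  obtain ⟨L, r, X, h1, h2, h3, h4⟩ := h
  exact ⟨L, r, X, h1, h2, fun i hi => h3 i (hB hi), fun f hf hfB => h4 f hf fun i => hB (hfB i)⟩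

theorem disjoint_of_separated {n d : ℕ} {a : Fin n → Set (Fin d → ℝ)} (h : Separated 0 a) :
    ∀ i j, i ≠ j → Disjoint (a i) (a j) := by
  intro i j hij
  rw [Set.disjoint_left]
  intro y hyi hyj
  have h1 := h ![i, j] (by
    intro u v huv
    fin_cases u <;> fin_cases v <;> simp_all) ![y, y] (by
    intro u
    fin_cases u <;> simpa)
  have h2 := h1.injective (show ![y, y] 0 = ![y, y] 1 by simp)
  exact absurd h2 (by decide)

/-- The induction statement of part (A). -/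
def QA (k h : ℕ) : Prop :=
  ∃ (n : ℕ) (a : Fin n → Set (Fin (k + 3) → ℝ)) (p : Fin n → Fin (k + 2) → ℝ),
    (∀ i, ∃ u v, a i = segment ℝ u v) ∧ (∀ i j, i ≠ j → Disjoint (a i) (a j)) ∧
    Separated k a ∧ GenPos p ∧
    (∀ B : Finset (Fin n), B.card ≤ h → Cons a p B) ∧ ¬ Cons a p Finset.univ

theorem QA_base (hMC : S_MC) (hCM : S_CM) (hBASE : S_BASE) (h : ℕ) : QA 0 h := by
  obtain ⟨n, a, p, h1, h2, h3, h4, h5⟩ := hBASE h
  exact ⟨n, a, p, h1, disjoint_of_separated h2, h2, h3, fun B hB => hMC _ _ _ _ _ (h4 B hB),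
    fun h6 => h5 (hCM _ _ _ _ _ h6)⟩

theorem QA_step (hL1 : S_L1) (hL4 : S_L4) (hL2 : S_L2) (hL3 : S_L3) (hSD : S_SD) {k h : ℕ}
    (hQ : QA k h) : QA (k + 1) h := by
  classical
  obtain ⟨n, a, p, hseg, hdis, hsep, hgp, hfew, hall⟩ := hQ
  have hn : 0 < n := by
    rcases Nat.eq_zero_or_pos n with h0 | h0
    · exfalso
      subst h0
      apply hall
      have := hfew ∅ (by simp)
      convert this
      ext x
      exact x.elim0
    · exact h0
  have hcomp : ∀ i, IsCompact (a i) := by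
    intro i
    obtain ⟨u, v, huv⟩ := hseg i
    rw [huv, ← convexHull_pair]
    exact (Set.toFinite _).isCompact_convexHull ℝ
  have e1 : ∀ᶠ Γ : ℝ in atTop, ∀ B : Finset (Fin n), B.card ≤ h →
      Cons (liftA Γ a) (liftP Γ p) (liftB B) := by
    rw [Filter.eventually_all]
    intro B
    by_cases hB : B.card ≤ h
    · filter_upwards [hL1 _ _ a p B hgp (hfew B hB)] with Γ hΓ _ using hΓ
    · exact Filter.Eventually.of_forall fun Γ h' => absurd h' hB
  have e2 := hL3 n (k + 3) k a hcomp hsep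
  have e3 := hL4 _ _ p hgp
  have e4 : ∀ᶠ Γ : ℝ in atTop, 1 < Γ := eventually_gt_atTop 1
  obtain ⟨Γ, g1, g2, g3, g4⟩ := (e1.and (e2.and (e3.and e4))).exists
  have g0 : 0 < Γ := by linarith
  refine ⟨n + 1, liftA Γ a, liftP Γ p, hSD.1 _ _ a Γ g0 hseg, hSD.2 _ _ a Γ g4, g2, g3, ?_, ?_⟩
  · intro B' hB'
    let B : Finset (Fin n) := Finset.univ.filter fun i => i.castSucc ∈ B'
    have hcard : B.card ≤ B'.card := by
      apply Finset.card_le_card_of_injOn Fin.castSucc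
      · intro i hi
        simpa [B] using hi
      · intro i _ j _ hij
        exact Fin.castSucc_injective _ hij
    apply (g1 B (hcard.trans hB')).mono
    intro i hi
    refine Fin.lastCases (fun _ => ?_) (fun j hj => ?_) i hi
    · simp [liftB]
    · simp only [liftB, Finset.mem_insert, Finset.mem_map]
      right
      exact ⟨j, by simpa [B] using hj, rfl⟩
  · intro h6
    exact hall (hL2 _ _ a p Γ g0 hn h6)

theorem QA_all (hMC : S_MC) (hCM : S_CM) (hBASE : S_BASE) (hL1 : S_L1) (hL4 : S_L4) (hL2 : S_L2)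
    (hL3 : S_L3) (hSD : S_SD) (k h : ℕ) : QA k h := by
  induction k with
  | zero => exact QA_base hMC hCM hBASE h
  | succ k ih => exact QA_step hL1 hL4 hL2 hL3 hSD ih

/-- Part (A). -/
theorem partA (hMC : S_MC) (hCM : S_CM) (hBASE : S_BASE) (hL1 : S_L1) (hL4 : S_L4) (hL2 : S_L2)
    (hL3 : S_L3) (hSD : S_SD) (k h : ℕ) :
    ∃ (n : ℕ) (a : Fin n → Set (Fin (k + 3) → ℝ)) (p : Fin n → Fin (k + 2) → ℝ),
      (∀ i, ∃ u v, a i = segment ℝ u v) ∧ (∀ i j, i ≠ j → Disjoint (a i) (a j)) ∧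
      Separated k a ∧ GenPos p ∧
      (∀ B : Finset (Fin n), B.card ≤ h → Met a p B) ∧ ¬ Met a p Finset.univ := by
  obtain ⟨n, a, p, h1, h2, h3, h4, h5, h6⟩ := QA_all hMC hCM hBASE hL1 hL4 hL2 hL3 hSD k h
  exact ⟨n, a, p, h1, h2, h3, h4, fun B hB => hCM _ _ _ _ _ (h5 B hB),
    fun h7 => h6 (hMC _ _ _ _ _ h7)⟩

/-- Part (B). -/
theorem partB (hMC : S_MC) (hCM : S_CM) (hSB : S_SB) (hOMIT : S_OMIT) (hDATA : S_DATA)
    (hNOTB : S_NOTB) (K : ℕ) :
    (∀ i, ∃ u v, famA K i = segment ℝ u v) ∧ (∀ i j, i ≠ j → Disjoint (famA K i) (famA K j)) ∧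
      Separated K (famA K) ∧ GenPos (famP K) ∧
      (∀ B : Finset (Fin (K + 4)), B ≠ Finset.univ → Met (famA K) (famP K) B) ∧
      ¬ Met (famA K) (famP K) Finset.univ := by
  obtain ⟨h1, h2, h3, h4⟩ := hSB K
  refine ⟨h3, h4, h1, h2, ?_, fun h => hNOTB K (hMC _ _ _ _ _ h)⟩
  intro B hB
  have : ∃ i₀, i₀ ∉ B := by
    by_contra hc
    push Not at hc
    exact hB (Finset.eq_univ_iff_forall.2 hc)
  obtain ⟨i₀, hi₀⟩ := this
  obtain ⟨X, α, lam, d1, d2, d3, d4, d5, d6, d7⟩ := hDATA K i₀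
  have h5 := hOMIT K i₀ X α lam d1 d2 d3 d4 d5 d6 d7
  apply hCM
  apply h5.mono
  intro i hi
  rw [Finset.mem_erase]
  exact ⟨fun h => hi₀ (h ▸ hi), Finset.mem_univ _⟩

/-- ordering points in general position are distinct -/
theorem GenPos.injective {k n : ℕ} {p : Fin n → Fin (k + 1) → ℝ} (hn : k + 2 ≤ n)
    (h : GenPos p) : Function.Injective p := by
  classical
  intro i j hij
  by_contra hne
  -- an increasing tuple containing both `i` and `j`
  obtain ⟨S, hS, hcard⟩ : ∃ S : Finset (Fin n), {i, j} ⊆ S ∧ S.card = k + 2 := by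
    obtain ⟨S, h1, h2⟩ := Finset.exists_superset_card_eq (s := ({i, j} : Finset (Fin n)))
      (n := k + 2) (by rw [Finset.card_pair hne]; omega) (by simpa using hn)
    exact ⟨S, h1, h2⟩
  have hmem : ∀ l ∈ S, ∃ u, S.orderEmbOfFin hcard u = l := by
    intro l hl
    have := Finset.range_orderEmbOfFin S hcard
    have h2 : l ∈ Set.range (S.orderEmbOfFin hcard) := by rw [this]; exact hl
    exact h2
  obtain ⟨u, hu⟩ := hmem i (hS (by simp))
  obtain ⟨v, hv⟩ := hmem j (hS (by simp))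
  have huv : u ≠ v := by
    rintro rfl
    exact hne (hu.symm.trans hv)
  apply h (S.orderEmbOfFin hcard) (S.orderEmbOfFin hcard).strictMono
  unfold orient
  apply Matrix.det_zero_of_row_eq huv
  funext l
  simp only [Matrix.of_apply]
  rw [hu, hv, hij]

end Pool.Agent.V5helper14.Sep
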