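import Pool.Agent.V5helper14.Hel.Ord

/-!
# Separated families: definitions

Everything about project SE (MP_b157f3_co): definitions used by all the jobs.
-/

set_option autoImplicit false

namespace Pool.Agent.V5helper14.Sep

open Matrix Filter Pool.Agent.V5helper14.Hel

/-- The same orientations of all increasing tuples from `B`. -/
def Same {k n : ℕ} (x p : Fin n → Fin k → ℝ) (B : Finset (Fin n)) : Prop :=
  ∀ f : Fin (k + 1) → Fin n, StrictMono f → (∀ i, f i ∈ B) →
    SignType.sign (orient x f) = SignType.sign (orient p f)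

/-- Met consistently (as in the hand-in `NoFiniteHellyNumber`). -/
def Met {k n : ℕ} (a : Fin n → Set (Fin (k + 1) → ℝ)) (p : Fin n → Fin k → ℝ)
    (B : Finset (Fin n)) : Prop :=
  ∃ φ : (Fin k → ℝ) →ᵃ[ℝ] (Fin (k + 1) → ℝ), Function.Injective φ ∧
    ∃ x : Fin n → Fin k → ℝ, (∀ i ∈ B, φ (x i) ∈ a i) ∧ Same x p B

/-- The row `(1, X)`. -/
def row {m : ℕ} (X : Fin m → ℝ) : Fin (m + 1) → ℝ := Fin.cons 1 X

/-- The determinant with the rows `(1, X (f 0)), ..., (1, X (f k))` and the last row `r`. -/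
noncomputable def hdet {k : ℕ} {ι : Type*} (X : ι → Fin (k + 1) → ℝ) (r : Fin (k + 2) → ℝ)
    (f : Fin (k + 1) → ι) : ℝ :=
  Matrix.det (Matrix.of (Fin.snoc (α := fun _ => Fin (k + 2) → ℝ) (fun i => row (X (f i))) r))

/-- Met consistently, with the hyperplane `L ⬝ (1, X) = 0`, oriented by a vector `r` off it. -/
def Cons {k n : ℕ} (a : Fin n → Set (Fin (k + 1) → ℝ)) (p : Fin n → Fin k → ℝ)
    (B : Finset (Fin n)) : Prop :=
  ∃ (L r : Fin (k + 2) → ℝ) (X : Fin n → Fin (k + 1) → ℝ), Fin.tail L ≠ 0 ∧ L ⬝ᵥ r ≠ 0 ∧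
    (∀ i ∈ B, X i ∈ a i ∧ L ⬝ᵥ row (X i) = 0) ∧
    ∀ f : Fin (k + 1) → Fin n, StrictMono f → (∀ i, f i ∈ B) →
      SignType.sign (hdet X r f) = SignType.sign (orient p f)

/-- `m`-separated: no `m + 2` members are met by an `m`-flat, i.e. points chosen from `m + 2`
different members are always affinely independent. -/
def Separated {n d : ℕ} (m : ℕ) (a : Fin n → Set (Fin d → ℝ)) : Prop :=
  ∀ f : Fin (m + 2) → Fin n, Function.Injective f → ∀ x : Fin (m + 2) → Fin d → ℝ,
    (∀ i, x i ∈ a (f i)) → AffineIndependent ℝ x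

/-- general position of the ordering points -/
def GenPos {k n : ℕ} (p : Fin n → Fin k → ℝ) : Prop :=
  ∀ f : Fin (k + 1) → Fin n, StrictMono f → orient p f ≠ 0

/-! ## The lift to one dimension more -/

/-- The point `X` at height `g`, seen from the apex. -/
noncomputable def liftPt {m : ℕ} (g : ℝ) (X : Fin m → ℝ) : Fin (m + 1) → ℝ :=
  Fin.snoc (α := fun _ => ℝ) (fun l => (1 + g)⁻¹ * X l) ((1 + g)⁻¹ * g)

/-- The apex. -/
def apex (m : ℕ) : Fin (m + 1) → ℝ := Fin.snoc (α := fun _ => ℝ) 0 1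

/-- The lifted points, and the apex as the last one. -/
noncomputable def liftP {n m : ℕ} (Γ : ℝ) (p : Fin n → Fin m → ℝ) : Fin (n + 1) → Fin (m + 1) → ℝ :=
  Fin.snoc (α := fun _ => Fin (m + 1) → ℝ) (fun i => liftPt (Γ ^ (i : ℕ)) (p i)) (apex m)

/-- The lifted sets, and the apex as the last one. -/
noncomputable def liftA {n m : ℕ} (Γ : ℝ) (a : Fin n → Set (Fin m → ℝ)) :
    Fin (n + 1) → Set (Fin (m + 1) → ℝ) :=
  Fin.snoc (α := fun _ => Set (Fin (m + 1) → ℝ)) (fun i => liftPt (Γ ^ (i : ℕ)) '' a i) {apex m}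

/-- `B` and the apex. -/
def liftB {n : ℕ} (B : Finset (Fin n)) : Finset (Fin (n + 1)) :=
  insert (Fin.last n) (B.map Fin.castSuccEmb)

/-! ## The small family: four segments and `K` points in `ℝ^(K+2)` -/

/-- the heights -/
noncomputable def cc {K : ℕ} (m : Fin K) : ℝ := 1 / (20 + (m : ℕ))

/-- heights of the four segments over the `m`-th apex -/
noncomputable def gg {K : ℕ} (j : Fin 4) (m : Fin K) : ℝ := ![0, 0, cc m, 1] j

/-- total height -/
noncomputable def ss (K : ℕ) (j : Fin 4) : ℝ := 1 + ∑ m : Fin K, gg j m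

/-- The point over the plane point (or point of the line) `X` belonging to the `j`-th segment:
coordinates: first the `K` heights, then `X`; all divided by the total height. -/
noncomputable def emb {K q : ℕ} (j : Fin 4) (X : Fin q → ℝ) : Fin (K + q) → ℝ :=
  Fin.append (fun m => (ss K j)⁻¹ * gg j m) (fun l => (ss K j)⁻¹ * X l)

/-- the `m`-th apex -/
def apx {K q : ℕ} (m : Fin K) : Fin (K + q) → ℝ := Fin.append (Pi.single m 1) 0

/-- ends of the four segments in the plane -/
noncomputable def endU : Fin 4 → Fin 2 → ℝ := ![![-4, -4], ![-1, -1], ![1, -1], ![-20, 0]]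
noncomputable def endV : Fin 4 → Fin 2 → ℝ := ![![10, 0], ![-1, 1], ![1, 1], ![20, -20]]

/-- the four segments in the plane -/
noncomputable def sgm4 (j : Fin 4) : Set (Fin 2 → ℝ) := segment ℝ (endU j) (endV j)

/-- The family: first the `K` apexes, then the four segments. -/
noncomputable def famA (K : ℕ) : Fin (K + 4) → Set (Fin (K + 2) → ℝ) :=
  Fin.append (fun m => {apx m}) (fun j => emb j '' sgm4 j)

/-- The ordering points: `1, 2, 3, 4` on the line, lifted in the same way. -/
noncomputable def famP (K : ℕ) : Fin (K + 4) → Fin (K + 1) → ℝ :=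
  Fin.append (fun m => apx m) (fun j => emb j (fun _ : Fin 1 => ((j : ℕ) : ℝ) + 1))

/-- Chosen points of all the members: `X j` in the four segments. -/
noncomputable def pts {K q : ℕ} (X : Fin 4 → Fin q → ℝ) : Fin (K + 4) → Fin (K + q) → ℝ :=
  Fin.append (fun m => apx m) (fun j => emb j (X j))

/-- Coefficients of the affine dependence of the points `pts X` which comes from an affine
dependence `α` of the four points `X j`. -/
noncomputable def coef {K : ℕ} (α : Fin 4 → ℝ) : Fin (K + 4) → ℝ :=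
  Fin.append (fun m => -∑ j, α j * gg j m) (fun j => ss K j * α j)

end Pool.Agent.V5helper14.Sep
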