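import Pool.Agent.V5helper14.Sep.Defs

/-!
# Project SE (MP_b157f3_co): statements of the jobs

Two strengthenings of the hand-in `NoFiniteHellyNumber` (consistently ordered hyperplane
transversals): (A) no finite Helly number even for `(d-3)`-separated families of segments in `ℝ^d`
with ordering points in general position; (B) for `(d-2)`-separated families the Helly number is at
least `d + 2`, for every `d ≥ 2`. Prove a job as `theorem t_XX : S_XX` in
`Pool/Agent/V5<you>/SE/XX.lean` importing this file (only Mathlib behind it). Every job may take the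
others it needs as hypotheses, e.g. `theorem t_L1 (h : S_ORI) : S_L1`.
-/

set_option autoImplicit false

namespace Pool.Agent.V5helper14.Sep

open Matrix Filter Pool.Agent.V5helper14.Hel

/-- JOB MC (80 lines). `L = (-c, N)` where `N ⬝ φ v = c`, `N ≠ 0` (`exists_normal` in
`Pool.Agent.V5helper14.Hel.Final`; see `orient_affine` there for the same trick). `X i = φ (x i)`.
Let `W` be the `(k+1) × (k+2)` matrix with the rows `(1, φ 0)`, `(0, φ.linear e_l)`; they are linearly
independent (φ injective) and killed by `L`. Then `(1, φ (x i)) = (1, x i) W`, so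
`hdet X r f = orient x f * det [W; r]` (block product). Take `r = ± L`: `det [W; L] ≠ 0`, because
`L ⬝ L > 0`, and choose the sign such that `det [W; r] > 0`. -/
def S_MC : Prop :=
  ∀ (k n : ℕ) (a : Fin n → Set (Fin (k + 1) → ℝ)) (p : Fin n → Fin k → ℝ) (B : Finset (Fin n)),
    Met a p B → Cons a p B

/-- JOB CM (100 lines). Take an injective affine `φ : ℝ^(k+1) → ℝ^(k+2)` with image the hyperplane
`L ⬝ (1, X) = 0` (`tail L ≠ 0`; e.g. solve for a coordinate `j` with `L (j+1) ≠ 0` and insert it with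
`Fin.insertNth`/`j.succAbove`), so `X i = φ (x i)` for `i ∈ B`. With `W` as in job MC:
`hdet X r f = orient x f * det [W; r]` and `det [W; r] ≠ 0` as `L ⬝ r ≠ 0`. If it is negative, replace
`φ`, `x` by `φ ∘ ρ`, `ρ ∘ x`, `ρ` = change of sign of the coordinate `0`. -/
def S_CM : Prop :=
  ∀ (k n : ℕ) (a : Fin n → Set (Fin (k + 2) → ℝ)) (p : Fin n → Fin (k + 1) → ℝ)
    (B : Finset (Fin n)), Cons a p B → Met a p B

/-- JOB ORI (80 lines). Determinants of lifted points. The row `(1, liftPt g X)` is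
`(1+g)⁻¹ (1+g, X, g)`; subtracting the last column from the first one gives `(1+g)⁻¹ (1, X, g)`, and
the apex `(1, 0, 1)` becomes `(0, 0, 1)`; a row `(-r 0, -r', 0)` stays the same.
(1), (3) expand along the row of the apex. (2), (4): expand along the last column:
`∏ (1+g)⁻¹ * ∑ i, ± Γ^(f i) * minor`, where the term with `i = last` (the largest power) has the sign
of `orient p (f ∘ castSucc)`, resp. of `hdet X r (f ∘ castSucc)`, which is not zero. (`r ↦ -r` makes
the signs right: in (3), (4) the cofactor sign is `-1` and the last row `-r` gives another `-1`.)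
For (2), (4) as `Γ → ∞`: `Γ^(f i) ≤ Γ^(f last - 1)` for the other `i`. -/
def S_ORI : Prop :=
  (∀ (k n : ℕ) (p : Fin n → Fin k → ℝ) (Γ : ℝ), 0 < Γ → ∀ g : Fin (k + 1) → Fin n,
    ∃ c : ℝ, 0 < c ∧ orient (liftP Γ p)
      (Fin.snoc (α := fun _ => Fin (n + 1)) (fun i => (g i).castSucc) (Fin.last n)) =
        c * orient p g) ∧
  (∀ (k n : ℕ) (p : Fin n → Fin k → ℝ) (f : Fin (k + 2) → Fin n), StrictMono f →
    orient p (fun i => f i.castSucc) ≠ 0 →
    ∀ᶠ Γ : ℝ in atTop, SignType.sign (orient (liftP Γ p) (fun i => (f i).castSucc)) =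
      SignType.sign (orient p (fun i => f i.castSucc))) ∧
  (∀ (k n : ℕ) (X : Fin n → Fin (k + 1) → ℝ) (r : Fin (k + 2) → ℝ) (Γ : ℝ), 0 < Γ →
    ∀ g : Fin (k + 1) → Fin n,
    ∃ c : ℝ, 0 < c ∧ hdet (liftP Γ X) (Fin.snoc (α := fun _ => ℝ) (-r) 0)
      (Fin.snoc (α := fun _ => Fin (n + 1)) (fun i => (g i).castSucc) (Fin.last n)) =
        c * hdet X r g) ∧
  (∀ (k n : ℕ) (X : Fin n → Fin (k + 1) → ℝ) (r : Fin (k + 2) → ℝ) (f : Fin (k + 2) → Fin n),
    StrictMono f → hdet X r (fun i => f i.castSucc) ≠ 0 →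
    ∀ᶠ Γ : ℝ in atTop, SignType.sign (hdet (liftP Γ X) (Fin.snoc (α := fun _ => ℝ) (-r) 0)
      (fun i => (f i).castSucc)) = SignType.sign (hdet X r (fun i => f i.castSucc)))

/-- JOB L1 (80 lines, uses ORI; also prove L4 in the same file, 25 lines). With `L, r, X` from
`Cons a p B` take `L' = (L 0, tail L, -L 0)`, `r' = (-r, 0)`, `X' = liftP Γ X`. An increasing tuple
in `liftB B` either ends with the apex (`ORI` (1) and (3)) or not (`ORI` (2) and (4)); only finitely
many tuples (`Filter.eventually_all`). `hdet X r g ≠ 0` because its sign is that of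
`orient p g ≠ 0`. -/
def S_L1 : Prop :=
  ∀ (k n : ℕ) (a : Fin n → Set (Fin (k + 1) → ℝ)) (p : Fin n → Fin k → ℝ) (B : Finset (Fin n)),
    GenPos p → Cons a p B → ∀ᶠ Γ : ℝ in atTop, Cons (liftA Γ a) (liftP Γ p) (liftB B)

/-- JOB L4 (25 lines, uses ORI (1), (2)). -/
def S_L4 : Prop :=
  ∀ (k n : ℕ) (p : Fin n → Fin k → ℝ), GenPos p → ∀ᶠ Γ : ℝ in atTop, GenPos (liftP Γ p)

/-- JOB L2 (90 lines, uses ORI (1)). Given `L', r', X'` for the lifted family: the apex gives
`L' 0 + L' last = 0`; `X' i = liftPt (Γ^i) (X i)` with `X i ∈ a i`. Take `L = (L' 0, ..)` = all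
coordinates of `L'` but the last, and `r = -(r' 0 - r' last, the other r' but the last)`. Then
`L ⬝ (1, X i) = (1 + Γ^i) L' ⬝ (1, X' i) = 0`, `L ⬝ r = - L' ⬝ r' ≠ 0`. `tail L ≠ 0`: otherwise
`L' = (u, 0, -u)`, `u ≠ 0`, and `L' ⬝ (1, X' i) = u / (1 + Γ^i) ≠ 0` for `i = 0`. Signs: subtract the
last column from the first one and expand along the row of the apex:
`hdet X' r' (snoc (castSucc ∘ f) last) = (positive) * hdet X r f`. -/
def S_L2 : Prop :=
  ∀ (k n : ℕ) (a : Fin n → Set (Fin (k + 1) → ℝ)) (p : Fin n → Fin k → ℝ) (Γ : ℝ), 0 < Γ →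
    0 < n → Cons (liftA Γ a) (liftP Γ p) Finset.univ → Cons a p Finset.univ

/-- JOB L3 (150 lines). `m + 3` different members of the lifted family. If the apex is one of them:
affine independence of the points `liftPt (g i) (X i)` and of the apex follows from the affine
independence of the `X i` (`m + 2` of them): a relation `∑ μ i (1+g i, X i, g i) + β (1, 0, 1) = 0`
gives `∑ μ i (1, X i) = 0`. If not: let `t` be the place with the largest index `f t`. The set of the
`(X, μ)` with `X i ∈ a (f i)`, `∑ |μ i| = 1`, `∑ μ i = 0`, `∑ μ i X i = 0` is compact, and `μ t ≠ 0` on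
it by `Separated m a` (the `m + 2` others are affinely independent), so `|μ t| ≥ δ > 0` on it. A
relation of the lifted points gives (after scaling) such a `μ` with `∑ μ i Γ^(f i) = 0`, impossible
for `Γ > 1/δ`, `Γ ≥ 1`. Finitely many `f`: `Filter.eventually_all`. -/
def S_L3 : Prop :=
  ∀ (n d m : ℕ) (a : Fin n → Set (Fin d → ℝ)), (∀ i, IsCompact (a i)) → Separated m a →
    ∀ᶠ Γ : ℝ in atTop, Separated (m + 1) (liftA Γ a)

/-- JOB SD (60 lines). Segments stay segments; lifted members are pairwise disjoint (their last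
coordinates `Γ^i / (1 + Γ^i)` and `1` are different). -/
def S_SD : Prop :=
  (∀ (n d : ℕ) (a : Fin n → Set (Fin d → ℝ)) (Γ : ℝ), 0 < Γ →
    (∀ i, ∃ u v, a i = segment ℝ u v) → ∀ i, ∃ u v, liftA Γ a i = segment ℝ u v) ∧
  (∀ (n d : ℕ) (a : Fin n → Set (Fin d → ℝ)) (Γ : ℝ), 1 < Γ →
    ∀ i j, i ≠ j → Disjoint (liftA Γ a i) (liftA Γ a j))

/-- JOB BASE (80 lines). Import `Pool.Agent.V5helper14.Hel.Final`: copy the proof of the hand-in
`NoFiniteHellyNumber` (Pool/Agent/Results/MP_b157f3_co/NoFiniteHellyNumber.lean) for `k = 2` with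
`e = Hel.exBase h`. `Separated 0` is pairwise disjointness (two points are affinely independent iff
different). `GenPos`: `Hel.sign_const` and `Hel.cond_two` at `t = 2` give nonzero signs (values
`1`, `-1` only) for increasing triples of `Idx m`; for other orders of the labels use
`Hel.orient_perm`. -/
def S_BASE : Prop :=
  ∀ h : ℕ, ∃ (n : ℕ) (a : Fin n → Set (Fin 3 → ℝ)) (p : Fin n → Fin 2 → ℝ),
    (∀ i, ∃ u v, a i = segment ℝ u v) ∧ Separated 0 a ∧ GenPos p ∧
    (∀ B : Finset (Fin n), B.card ≤ h → Met a p B) ∧ ¬ Met a p Finset.univ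

/-! ## Part B -/

/-- JOB DEP (40 lines). Cramer: let `M` be the `(N+1) × (N+1)` matrix with the first column
`Pi.single i 1` and the other columns `Z`. `det M = (-1)^i det (Z without i)`, `ν ᵥ* M = (ν i, 0, ..)`,
multiply by the adjugate; `adj M 0 j = (-1)^j det (Z without j)`. -/
def S_DEP : Prop :=
  ∀ (N : ℕ) (Z : Fin (N + 1) → Fin N → ℝ) (ν : Fin (N + 1) → ℝ), ∑ i, ν i • Z i = 0 →
    ∀ i j : Fin (N + 1),
      (-1) ^ (i : ℕ) * Matrix.det (Matrix.of fun l => Z (i.succAbove l)) * ν j =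
      (-1) ^ (j : ℕ) * Matrix.det (Matrix.of fun l => Z (j.succAbove l)) * ν i

/-- JOB MONO (40 lines; do it together with DEP). -/
def S_MONO : Prop :=
  ∀ (N : ℕ) (f : Fin N → Fin (N + 2)), StrictMono f → ∀ i, (∀ l, f l ≠ i) →
    ∃ j : Fin (N + 1), f = fun l => i.succAbove (j.succAbove l)

/-- JOB COEF (40 lines). The vector `(1, emb j X)` is `(ss j)⁻¹ (ss j, gg j, X)` and
`ss j = 1 + ∑ m, gg j m`. -/
def S_COEF : Prop :=
  ∀ (K q : ℕ) (X : Fin 4 → Fin q → ℝ) (α : Fin 4 → ℝ), ∑ j, α j = 0 → ∑ j, α j • X j = 0 →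
    ∑ i, coef (K := K) α i • row (pts (K := K) X i) = 0

/-- JOB IND (150 lines). Linear independence of the rows of any `K + 2` members, for the points of
the line and for points of the segments. Let `β` be a relation `∑ i, β i • row (pts X i) = 0` with
`β = 0` at (at least) two members. Put `α j = β (segment j) / ss j`. The relation says
`∑ α j = 0`, `∑ α j • X j = 0` and `β (apex m) = - ∑ j, α j * gg j m` (i.e. `β = coef α`). Show
`β = 0`, i.e. `α = 0` (then all is 0):
* two apexes `m ≠ m'` with `β = 0`: `α 3 + cc m * α 2 = 0 = α 3 + cc m' * α 2`, so `α 2 = α 3 = 0`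
  and then `α 0 = α 1 = 0` as `X 0 ≠ X 1`;
* one apex `m` and one segment `j`: `α j = 0`, `α 3 + cc m * α 2 = 0`. `j = 3`: `α 2 = 0`; `j = 2`:
  `α 3 = 0`. `j = 1`: `α 3 = - c α 2`, `α 0 = - (1 - c) α 2`, if `α 2 ≠ 0` then
  `(1 - c) X 0 = X 2 - c X 3`: on the line of segment 0 we have `7 y = 2 x - 20`, so
  `7 y2 + 18 = c (7 y3 - 2 x3 + 20) ≤ 60 c < 11 ≤ 7 y2 + 18`. `j = 0`:
  `(1 - c) X 1 = X 2 - c X 3`, first coordinate: `-1 + c = 1 - c x3`, `2 = c (1 + x3) ≤ 21 c`.
  (`0 < c ≤ 1/20`.)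
* two segments: the other two have different points.
The same for the points `1, 2, 3, 4` of the line: `j = 1`: `1 (1 - c) = 3 - 4 c` impossible; `j = 0`:
`2 (1 - c) = 3 - 4 c` impossible. The hypothesis `hX` of (1) covers both. -/
def S_IND : Prop :=
  (∀ (K q : ℕ) (X : Fin 4 → Fin q → ℝ), (∀ i j, i ≠ j → X i ≠ X j) →
    (∀ m : Fin K, (1 - cc m) • X 0 ≠ X 2 - cc m • X 3 ∧ (1 - cc m) • X 1 ≠ X 2 - cc m • X 3) →
    ∀ β : Fin (K + 4) → ℝ, (∃ i j, i ≠ j ∧ β i = 0 ∧ β j = 0) →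
      ∑ i, β i • row (pts (K := K) X i) = 0 → β = 0) ∧
  (∀ (K : ℕ) (X : Fin 4 → Fin 2 → ℝ), (∀ j, X j ∈ sgm4 j) → (∀ i j, i ≠ j → X i ≠ X j) ∧
    (∀ m : Fin K, (1 - cc m) • X 0 ≠ X 2 - cc m • X 3 ∧ (1 - cc m) • X 1 ≠ X 2 - cc m • X 3)) ∧
  (∀ (K : ℕ), let X : Fin 4 → Fin 1 → ℝ := fun j _ => ((j : ℕ) : ℝ) + 1
    (∀ i j, i ≠ j → X i ≠ X j) ∧
    (∀ m : Fin K, (1 - cc m) • X 0 ≠ X 2 - cc m • X 3 ∧ (1 - cc m) • X 1 ≠ X 2 - cc m • X 3))

/-- JOB SB (80 lines, uses IND). `Separated K (famA K)`, `GenPos (famP K)` (a vanishing determinant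
gives a relation of the rows), segments (points are segments), pairwise disjointness. -/
def S_SB : Prop :=
  ∀ K : ℕ, Separated K (famA K) ∧ GenPos (famP K) ∧ (∀ i, ∃ u v, famA K i = segment ℝ u v) ∧
    (∀ i j, i ≠ j → Disjoint (famA K i) (famA K j))

/-- JOB OMIT (120 lines, uses DEP, MONO, COEF, IND). `B = univ.erase i₀`. The `K + 3` rows
`row (pts X (i₀.succAbove l))` in `ℝ^(K+3)` are dependent (COEF), so some `L ≠ 0` kills them
(`Matrix.exists_mulVec_eq_zero_iff`); `tail L ≠ 0` because the first coordinates are `1`. By MONO the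
increasing tuples of `B` are `i₀.succAbove ∘ j.succAbove`, `j : Fin (K + 3)`. DEP for the `K + 4`
vectors (the rows and `r = L`, coefficients `coef α` and `0`) and for the `K + 3` rows of the
ordering points (coefficients `coef lam`): `(-1)^j hdet = κ * coef α (i₀.succAbove j)`,
`(-1)^j orient = κ' * coef lam (i₀.succAbove j)`, `κ, κ' ≠ 0` by IND (for `hdet` also `L ⬝ L ≠ 0`), so
the signs agree up to one common sign: choose `r = L` or `r = -L`. -/
def S_OMIT : Prop :=
  ∀ (K : ℕ) (i₀ : Fin (K + 4)) (X : Fin 4 → Fin 2 → ℝ) (α lam : Fin 4 → ℝ),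
    (∀ j, X j ∈ sgm4 j) → ∑ j, α j = 0 → ∑ j, α j • X j = 0 → ∑ j, lam j = 0 →
    ∑ j, lam j * (((j : ℕ) : ℝ) + 1) = 0 →
    (∀ i, SignType.sign (coef (K := K) α i) = SignType.sign (coef (K := K) lam i)) →
    (∀ i, coef (K := K) α i = 0 ↔ i = i₀) →
    Cons (famA K) (famP K) (Finset.univ.erase i₀)

/-- JOB DATA (120 lines). The data for OMIT. With `c = cc m`, `0 < c ≤ 1/20`, `cc` injective; the
coefficient of the apex `m` is `-(α 3 + cc m * α 2)`.
Omit segment 3: `X = (-4,-4), (-1,-1), (1,1), any`, `α = (2, -5, 3, 0)`, `lam = (1, -2, 1, 0)`.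
Omit segment 2: `X = (10,0), (-1,0), any, (-20,0)`, `α = (19, -30, 0, 11)`, `lam = (2, -3, 0, 1)`.
Omit segment 1: `X = (10,0), any, (1,0), (-20,0)`, `α = (21, 0, -30, 9)`, `lam = (1, 0, -3, 2)`.
Omit segment 0: `X = any, (-1,1), (1,-1), (20,-20)`, `α = (0, 19, -21, 2)`, `lam = (0, 1, -2, 1)`.
Omit apex `m`, `c = cc m`: `X = (-4,-4), (-1,y), (1,1), (20,-20)`, `y = (-5+144c)/(5-24c)`,
`α = ((2-21c)/3, -(5-24c)/3, 1, -c)`, `lam = (1-2c, -2+3c, 1, -c)`; the coefficient of the apex `m'`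
is `-(cc m' - c)` for both. -/
def S_DATA : Prop :=
  ∀ (K : ℕ) (i₀ : Fin (K + 4)), ∃ (X : Fin 4 → Fin 2 → ℝ) (α lam : Fin 4 → ℝ),
    (∀ j, X j ∈ sgm4 j) ∧ ∑ j, α j = 0 ∧ ∑ j, α j • X j = 0 ∧ ∑ j, lam j = 0 ∧
    ∑ j, lam j * (((j : ℕ) : ℝ) + 1) = 0 ∧
    (∀ i, SignType.sign (coef (K := K) α i) = SignType.sign (coef (K := K) lam i)) ∧
    (∀ i, coef (K := K) α i = 0 ↔ i = i₀)

/-- JOB PAIR (120 lines). The determinants of the tuples of all the apexes and the segments `i < j`,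
for the ordering points and for points `pts X` of the members with a last row `r`: subtract the
columns of the apexes (columns `1, ..., K`) from the first one and use the apex rows (induction on `K`,
`Matrix.det_fromBlocks`, or: `det = det of the block (rows of the segments and r; columns without the
apex columns)`, e.g. by `Matrix.det_fromBlocks_zero₂₁` after `reindex`): there is a sign `s = ±1`
depending only on `K` (the same for the two) such that ... Here `rr` is what `r` becomes. -/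
def S_PAIR : Prop :=
  ∀ K : ℕ, ∃ s : ℝ, (s = 1 ∨ s = -1) ∧
    (∀ i j : Fin 4, i < j →
      ∃ c : ℝ, 0 < c ∧ orient (famP K)
        (Fin.append (fun m : Fin K => Fin.castAdd 4 m) ![Fin.natAdd K i, Fin.natAdd K j] :
          Fin (K + 2) → Fin (K + 4)) = s * c * (((j : ℕ) : ℝ) - ((i : ℕ) : ℝ))) ∧
    (∀ (X : Fin 4 → Fin 2 → ℝ) (r : Fin (K + 3) → ℝ), ∃ rr : Fin 3 → ℝ, ∃ s' : ℝ, s' = s ∧
      (∀ L : Fin (K + 3) → ℝ, (∀ m : Fin K, L ⬝ᵥ row (apx (q := 2) m) = 0) →
        L ⬝ᵥ r = ![L 0, L (Fin.natAdd K 1), L (Fin.natAdd K 2)] ⬝ᵥ rr) ∧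
      ∀ i j : Fin 4, i < j → ∃ c : ℝ, 0 < c ∧ hdet (k := K + 1) (pts (K := K) X) r
        (Fin.append (fun m : Fin K => Fin.castAdd 4 m) ![Fin.natAdd K i, Fin.natAdd K j] :
          Fin (K + 2) → Fin (K + 4)) =
        s' * c * Matrix.det !![1, X i 0, X i 1; 1, X j 0, X j 1; rr 0, rr 1, rr 2])

/-- JOB NOTB (120 lines, uses PAIR). Let `L, r, X'` be as in `Cons`. `X' (apex) = apx`, and
`X' (segment j) = emb j (X j)`, `X j ∈ sgm4 j`. With `ℓ = (L 0, L (K+1), L (K+2))` the line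
`ℓ ⬝ (1, X j) = 0` contains the four points, `ℓ ≠ 0` (`L ⬝ r ≠ 0`). By PAIR and `Cons` all the
determinants `det [1, X i; 1, X j; rr]`, `i < j`, have the same sign: so the points are in this order
on the line (for a vector `u` along the line, `X j - X i = τ • u` with `τ` of constant sign). In
particular `X 0 = X 1 - t (X 2 - X 1)`, `X 3 = X 2 + s (X 2 - X 1)`, `t, s > 0`. Segment 0:
`7 y0 = 2 x0 - 20`, `x0 = -1 - 2 t ≥ -4`: `7 ((1+t) y1 - t y2) = -22 - 4 t` and `y1 ≥ -1`, `y2 ≤ 1` give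
`t ≥ 3/2`, so `t = 3/2`, `y1 = -1`, `y2 = 1`; then `x3 = 1 + 2 s`, `y3 = 1 + 2 s > 0`, but `y ≤ 0` on
segment 3. -/
def S_NOTB : Prop := ∀ K : ℕ, ¬ Cons (famA K) (famP K) Finset.univ

end Pool.Agent.V5helper14.Sep
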